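import Mathlib
import Pool.Agent.W764.HL.Gen
import Pool.Agent.H847R3.XpXqE

/-!
Points whose orbit in a window visits all arcs with at least half of the expected frequency: they
form a set of small measure for every singular invariant measure.
-/

set_option autoImplicit false

open MeasureTheory Filter Topology Set
open scoped ENNReal

namespace Pool.Agent.U610.PI

abbrev T := UnitAddCircle

open Classical in
/-- all arcs are visited with at least half of the expected frequency, up to `ε` -/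
def Half (W : Finset ℕ) (ε : ℝ) (x : T) : Prop :=
  ∀ c : T, ∀ r : ℝ, 0 ≤ r → r ≤ 1 / 2 →
    (r - ε) * W.card ≤ ((W.filter fun n => ‖n • x - c‖ ≤ r).card : ℝ)

/-- the set of the points of the previous definition has measure at most `c'` for all windows -/
def Sm (p q : ℕ) (ν : Measure T) (c' ε : ℝ) : Prop :=
  ∀ W : Finset ℕ, W.Nonempty → (∀ n ∈ W, ∃ a b : ℕ, n = p ^ a * q ^ b) →
    ν {x | Half W ε x} ≤ ENNReal.ofReal c'

lemma half_mono {W : Finset ℕ} {ε ε' : ℝ} (h : ε' ≤ ε) {x : T} (hx : Half W ε' x) :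
    Half W ε x := by
  intro c r h0 h1
  refine le_trans ?_ (hx c r h0 h1)
  have : (0 : ℝ) ≤ W.card := Nat.cast_nonneg _
  nlinarith

lemma sm_mono {p q : ℕ} {ν : Measure T} {c' ε ε' : ℝ} (h : ε' ≤ ε) (hs : Sm p q ν c' ε) :
    Sm p q ν c' ε' := fun W hW hWS =>
  (measure_mono fun _ hx => half_mono h hx).trans (hs W hW hWS)

/-- lower bounds for arcs imply lower bounds for all sets -/
lemma lower {μ : Measure T} [IsFiniteMeasure μ] {η : ℝ} (hη : 0 < η)
    (h : ∀ c : T, ∀ r : ℝ, 0 < r → r ≤ 1 / 2 → ENNReal.ofReal (η * r) ≤ μ (Metric.closedBall c r))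
    (s : Set T) : ENNReal.ofReal (η / 2) * (volume : Measure T) s ≤ μ s := by
  set v := IsUnifLocDoublingMeasure.vitaliFamily (volume : Measure T) 1 with hv
  have h1 := v.measure_le_of_frequently_le (ρ := ENNReal.ofReal (η / 2) • (volume : Measure T)) μ
    Measure.smul_absolutelyContinuous s ?_
  · rwa [Measure.smul_apply, smul_eq_mul] at h1
  · intro x _
    have h2 : Tendsto (fun δ : ℝ => Metric.closedBall x δ) (𝓝[>] 0) (v.filterAt x) :=
      IsUnifLocDoublingMeasure.tendsto_closedBall_filterAt (volume : Measure T) (fun _ => x)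
        (fun δ => δ) tendsto_id (by
          filter_upwards [self_mem_nhdsWithin] with δ hδ
          rw [one_mul]
          exact Metric.mem_closedBall_self (le_of_lt hδ))
    refine h2.frequently (Eventually.frequently ?_)
    have h3 : ∀ᶠ δ : ℝ in 𝓝[>] 0, δ < 1 / 2 :=
      nhdsWithin_le_nhds (gt_mem_nhds (by norm_num))
    filter_upwards [self_mem_nhdsWithin, h3] with δ hδ hδ2
    have hδ0 : 0 < δ := hδ
    rw [Measure.smul_apply, smul_eq_mul, AddCircle.volume_closedBall, min_eq_right (by linarith)]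
    have h4 := h x δ hδ0 hδ2.le
    rw [← ENNReal.ofReal_mul (by positivity)]
    convert h4 using 2
    ring

/-- a singular measure has an arc of small measure compared with its length -/
lemma exists_arc {ν : Measure T} [IsFiniteMeasure ν] (hs : ν ⟂ₘ (volume : Measure T)) {η : ℝ}
    (hη : 0 < η) : ∃ c : T, ∃ r : ℝ, 0 < r ∧ r ≤ 1 / 2 ∧
      ν (Metric.closedBall c r) < ENNReal.ofReal (η * r) := by
  by_contra hcon
  push Not at hcon
  have h1 : ENNReal.ofReal (η / 2) • (volume : Measure T) ≤ ν := by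
    refine Measure.le_intro fun s _ _ => ?_
    rw [Measure.smul_apply, smul_eq_mul]
    exact lower hη hcon s
  have h2 := Pool.Agent.H847R3.XpXq.zero_of_le h1 hs
  rw [ENNReal.ofReal_eq_zero] at h2
  linarith

open Classical in
/-- **Windows are rarely half Lebesgue for a singular invariant measure.** -/
lemma exists_small {p q : ℕ} {ν : Measure T} [IsFiniteMeasure ν]
    (hνp : MeasurePreserving (fun x : T => p • x) ν ν)
    (hνq : MeasurePreserving (fun x : T => q • x) ν ν) (hs : ν ⟂ₘ (volume : Measure T))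
    {c' : ℝ} (hc' : 0 < c') : ∃ j : ℕ, Sm p q ν c' (1 / ((j : ℝ) + 1)) := by
  obtain ⟨c, r, hr0, hr, hν⟩ := exists_arc hs (η := c' / 2) (by positivity)
  obtain ⟨j, hj⟩ := exists_nat_one_div_lt (show 0 < r / 2 by positivity)
  refine ⟨j, sm_mono hj.le ?_⟩
  intro W hW hWS
  have hWR : (0 : ℝ) < W.card := by exact_mod_cast hW.card_pos
  set A := Metric.closedBall c r with hA
  have hAm : MeasurableSet A := measurableSet_closedBall
  set f : T → ℝ≥0∞ := fun x => ∑ n ∈ W, A.indicator (fun _ => (1 : ℝ≥0∞)) (n • x) with hf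
  have hcard : ∀ x, f x = ((W.filter fun n => ‖n • x - c‖ ≤ r).card : ℝ≥0∞) := by
    intro x
    rw [hf, Finset.card_filter]
    push_cast
    refine Finset.sum_congr rfl fun n _ => ?_
    by_cases h : ‖n • x - c‖ ≤ r
    · rw [if_pos h, indicator_of_mem (by rw [hA, Metric.mem_closedBall, dist_eq_norm]; exact h)]
    · rw [if_neg h, indicator_of_notMem (by rw [hA, Metric.mem_closedBall, dist_eq_norm]; exact h)]
  have hfm : ∀ n : ℕ, Measurable fun x : T => A.indicator (fun _ => (1 : ℝ≥0∞)) (n • x) := fun n =>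
    (measurable_const.indicator hAm).comp (Pool.Agent.H847R3.XpXq.meas_smul n)
  have hint : ∫⁻ x, f x ∂ν = W.card * ν A := by
    rw [hf, lintegral_finsetSum _ fun n _ => hfm n]
    have : ∀ n ∈ W, ∫⁻ x, A.indicator (fun _ => (1 : ℝ≥0∞)) (n • x) ∂ν = ν A := by
      intro n hn
      obtain ⟨a, b, rfl⟩ := hWS n hn
      have hmp := Pool.Agent.H847R3.XpXq.mp_S hνp hνq a b
      have := hmp.lintegral_comp (f := A.indicator (fun _ => (1 : ℝ≥0∞)))
        (measurable_const.indicator hAm)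
      rw [this, lintegral_indicator hAm]
      simp
    rw [Finset.sum_congr rfl this]
    simp
  have hfmeas : AEMeasurable f ν := (Finset.measurable_sum _ fun n _ => hfm n).aemeasurable
  have hmk := mul_meas_ge_le_lintegral₀ hfmeas (ENNReal.ofReal (r / 2 * W.card))
  have hsub : {x | Half W (r / 2) x} ⊆ {x | ENNReal.ofReal (r / 2 * W.card) ≤ f x} := by
    intro x hx
    have h1 := hx c r hr0.le hr
    show ENNReal.ofReal (r / 2 * W.card) ≤ f x
    rw [hcard, ← ENNReal.ofReal_natCast]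
    refine ENNReal.ofReal_le_ofReal (le_trans (le_of_eq ?_) h1)
    ring
  have h2 : ENNReal.ofReal (r / 2 * W.card) * ν {x | Half W (r / 2) x} ≤
      W.card * ENNReal.ofReal (c' / 2 * r) := by
    calc _ ≤ ENNReal.ofReal (r / 2 * W.card) * ν {x | ENNReal.ofReal (r / 2 * W.card) ≤ f x} := by
          gcongr
      _ ≤ _ := hmk
      _ = W.card * ν A := hint
      _ ≤ _ := by gcongr
  have h3 : (W.card : ℝ≥0∞) * ENNReal.ofReal (c' / 2 * r) =
      ENNReal.ofReal (r / 2 * W.card) * ENNReal.ofReal c' := by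
    rw [← ENNReal.ofReal_natCast, ← ENNReal.ofReal_mul (by positivity),
      ← ENNReal.ofReal_mul (by positivity)]
    congr 1
    ring
  rw [h3] at h2
  have h4 : ENNReal.ofReal (r / 2 * W.card) ≠ 0 := by
    rw [Ne, ENNReal.ofReal_eq_zero, not_le]
    positivity
  exact (ENNReal.mul_le_mul_iff_right h4 ENNReal.ofReal_ne_top).1 h2

open Classical in
/-- **One of two points is half Lebesgue.** -/
lemma pairHalf {p q : ℕ} (hp : 2 ≤ p) (hq : 2 ≤ q) (hpq : Nat.Coprime p q) {K : ℝ}
    (hK : 1 ≤ K) {ε : ℝ} (hε : 0 < ε) : ∃ δ : ℝ, 0 < δ ∧ ∀ τ : ℝ, 0 < τ → τ < δ →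
      ∃ W : Finset ℕ, W.Nonempty ∧ (∀ n ∈ W, ∃ a b : ℕ, n = p ^ a * q ^ b) ∧
        ∀ x y : T, τ ≤ ‖x - y‖ → ‖x - y‖ ≤ K * τ → Half W ε x ∨ Half W ε y := by
  obtain ⟨H0, hH1, hH⟩ := Pool.Agent.W764.HL.cluster hp hq hpq 2 hK hε
  obtain ⟨δ, hδ, h⟩ := hH H0 le_rfl
  refine ⟨δ, hδ, fun τ hτ hτδ => ?_⟩
  obtain ⟨hne, hx⟩ := h τ hτ hτδ
  refine ⟨Pool.Agent.W764.HL.win p q (1 / τ) (H0 / τ), hne,
    fun n hn => (Pool.Agent.W764.HL.mem_win.1 hn).1, fun x y h1 h2 => ?_⟩
  obtain ⟨α, hα, hsum, hv⟩ := hx ![x, y] (by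
    intro i j hij
    fin_cases i <;> fin_cases j
    · exact absurd rfl hij
    · exact ⟨h1, h2⟩
    · simp only [Fin.mk_one, Matrix.cons_val_one, Fin.zero_eta, Matrix.cons_val_zero]
      rw [norm_sub_rev]
      exact ⟨h1, h2⟩
    · exact absurd rfl hij)
  rw [Fin.sum_univ_two] at hsum
  rcases le_or_gt (1 / 2) (α 0) with h0 | h0
  · left
    intro c r hr0 hr
    refine le_trans ?_ (hv 0 c r hr)
    gcongr
    nlinarith
  · right
    intro c r hr0 hr
    have h3 : 1 / 2 ≤ α 1 := by linarith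
    refine le_trans ?_ (hv 1 c r hr)
    gcongr
    nlinarith

end Pool.Agent.U610.PI
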