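import Mathlib

/-!
Two facts of measure theory: many sets of measure at least `β` in a finite measure space have a pair
with a large intersection; the linear combinations of finitely many measurable functions, no
nontrivial one of which vanishes on a set of positive measure, are comparable to the size of the
coefficients outside a set of small measure, uniformly in the coefficients.
-/

set_option autoImplicit false

open MeasureTheory Filter Topology Set
open scoped ENNReal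

namespace Pool.Agent.U610.PI

section

/-- a linear combination -/
noncomputable def comb {Ω : Type*} {ι : Type*} [Fintype ι] (X : ι → Ω → ℝ) (v : ι → ℝ) (ω : Ω) : ℝ :=
  ∑ i, v i * X i ω

variable {Ω : Type*} {ι : Type*} [Fintype ι] {X : ι → Ω → ℝ}

lemma comb_sub (v w : ι → ℝ) (ω : Ω) : comb X (v - w) ω = comb X v ω - comb X w ω := by
  unfold comb
  rw [← Finset.sum_sub_distrib]
  exact Finset.sum_congr rfl fun i _ => by rw [Pi.sub_apply]; ring

lemma comb_smul (c : ℝ) (v : ι → ℝ) (ω : Ω) : comb X (c • v) ω = c * comb X v ω := by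
  unfold comb
  rw [Finset.mul_sum]
  exact Finset.sum_congr rfl fun i _ => by rw [Pi.smul_apply, smul_eq_mul]; ring

lemma comb_le (v : ι → ℝ) (ω : Ω) : |comb X v ω| ≤ ‖v‖ * ∑ i, |X i ω| := by
  unfold comb
  refine (Finset.abs_sum_le_sum_abs _ _).trans ?_
  rw [Finset.mul_sum]
  refine Finset.sum_le_sum fun i _ => ?_
  rw [abs_mul]
  gcongr
  exact norm_le_pi_norm v i

end

section

variable {Ω : Type*} [MeasurableSpace Ω]

/-- pairs with large intersection -/
lemma pairInter (P : Measure Ω) [IsFiniteMeasure P] {β : ℝ} (hβ : 0 < β) :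
    ∃ b : ℝ, 0 < b ∧ ∀ B : ℕ → Set Ω, (∀ i, MeasurableSet (B i)) → (∀ i, β ≤ P.real (B i)) →
      ∃ i j, i < j ∧ b ≤ P.real (B i ∩ B j) := by
  obtain ⟨N, hN⟩ := exists_nat_gt (2 * P.real univ / β)
  have hN0 : (0 : ℝ) < N := lt_of_le_of_lt (div_nonneg (by positivity) hβ.le) hN
  refine ⟨β / (2 * N), by positivity, fun B hB hβB => ?_⟩
  by_contra hcon
  push Not at hcon
  have key : ∀ n : ℕ, n ≤ N → (n : ℝ) * (β / 2) ≤ P.real (⋃ i ∈ Finset.range n, B i) := by
    intro n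
    induction n with
    | zero => intro _; simp
    | succ n ih =>
      intro hn
      have h1 := ih (by omega)
      have hU : MeasurableSet (⋃ i ∈ Finset.range n, B i) :=
        Finset.measurableSet_biUnion _ fun i _ => hB i
      have e : (⋃ i ∈ Finset.range (n + 1), B i) = (⋃ i ∈ Finset.range n, B i) ∪ B n := by
        ext ω
        simp only [Finset.mem_range, mem_iUnion, mem_union, exists_prop]
        constructor
        · rintro ⟨i, hi, h⟩
          rcases Nat.lt_succ_iff_lt_or_eq.1 hi with h' | rfl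
          · exact Or.inl ⟨i, h', h⟩
          · exact Or.inr h
        · rintro (⟨i, hi, h⟩ | h)
          · exact ⟨i, by omega, h⟩
          · exact ⟨n, by omega, h⟩
      have h2 : P.real ((⋃ i ∈ Finset.range n, B i) ∩ B n) ≤ n * (β / (2 * N)) := by
        rw [iUnion₂_inter]
        refine (measureReal_biUnion_finset_le _ _).trans ?_
        refine (Finset.sum_le_sum fun i hi => (hcon i n (Finset.mem_range.1 hi)).le).trans ?_
        simp
      have h3 := measureReal_union_add_inter (μ := P) (s := ⋃ i ∈ Finset.range n, B i) (t := B n)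
        (hB n) (measure_ne_top _ _) (measure_ne_top _ _)
      rw [e]
      have h4 := hβB n
      have h5 : (n : ℝ) * (β / (2 * N)) ≤ β / 2 := by
        have h6 : (n : ℝ) ≤ N := by exact_mod_cast (by omega : n ≤ N)
        calc (n : ℝ) * (β / (2 * N)) ≤ N * (β / (2 * N)) := by gcongr
          _ = β / 2 := by field_simp
      push_cast
      linarith
  have h1 := key N le_rfl
  have h2 : P.real (⋃ i ∈ Finset.range N, B i) ≤ P.real univ := measureReal_mono (subset_univ _)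
  rw [div_lt_iff₀ hβ] at hN
  linarith

variable {ι : Type*} [Fintype ι] {X : ι → Ω → ℝ}

lemma meas_comb (hX : ∀ i, Measurable (X i)) (v : ι → ℝ) : Measurable (comb X v) :=
  Finset.measurable_sum _ fun i _ => (hX i).const_mul _

/-- a measurable function is bounded outside a set of small measure -/
lemma bdd_outside (P : Measure Ω) [IsFiniteMeasure P] {S : Ω → ℝ} (hS : Measurable S) {b : ℝ}
    (hb : 0 < b) : ∃ M : ℝ, 0 < M ∧ P.real {ω | M < S ω} ≤ b := by
  have h1 : Tendsto (fun n : ℕ => P {ω | (n : ℝ) < S ω}) atTop (𝓝 (P (⋂ n : ℕ, {ω | (n : ℝ) < S ω})))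
    := by
    refine tendsto_measure_iInter_atTop (fun n => (measurableSet_lt measurable_const hS).nullMeasurableSet)
      ?_ ⟨0, measure_ne_top _ _⟩
    intro m n hmn ω hω
    have : (m : ℝ) ≤ n := by exact_mod_cast hmn
    exact lt_of_le_of_lt this hω
  have h2 : (⋂ n : ℕ, {ω | (n : ℝ) < S ω}) = ∅ := by
    ext ω
    simp only [mem_iInter, mem_ofPred_eq, mem_empty_iff_false, iff_false, not_forall, not_lt]
    exact exists_nat_ge (S ω)
  rw [h2, measure_empty] at h1
  have h3 : ∀ᶠ n : ℕ in atTop, P {ω | (n : ℝ) < S ω} < ENNReal.ofReal b :=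
    h1.eventually (gt_mem_nhds (by simpa using hb))
  obtain ⟨n, hn, hn1⟩ := (h3.and (eventually_ge_atTop 1)).exists
  refine ⟨n, by exact_mod_cast hn1, ?_⟩
  exact ENNReal.toReal_le_of_le_ofReal hb.le hn.le

/-- a function which is nonzero almost everywhere is bounded below outside a set of small measure -/
lemma small_values (P : Measure Ω) [IsFiniteMeasure P] {S : Ω → ℝ} (hS : Measurable S)
    (h0 : P {ω | S ω = 0} = 0) {b : ℝ} (hb : 0 < b) :
    ∃ η : ℝ, 0 < η ∧ P.real {ω | |S ω| ≤ η} ≤ b := by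
  have hd : ∀ n : ℕ, (0 : ℝ) < 1 / ((n : ℝ) + 1) := fun n => by positivity
  have h1 : Tendsto (fun n : ℕ => P {ω | |S ω| ≤ 1 / ((n : ℝ) + 1)}) atTop
      (𝓝 (P (⋂ n : ℕ, {ω | |S ω| ≤ 1 / ((n : ℝ) + 1)}))) := by
    refine tendsto_measure_iInter_atTop
      (fun n => (measurableSet_le hS.abs measurable_const).nullMeasurableSet)
      ?_ ⟨0, measure_ne_top _ _⟩
    intro m n hmn ω hω
    have : (m : ℝ) ≤ n := by exact_mod_cast hmn
    refine le_trans (show |S ω| ≤ 1 / ((n : ℝ) + 1) from hω) ?_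
    gcongr
  have h2 : (⋂ n : ℕ, {ω | |S ω| ≤ 1 / ((n : ℝ) + 1)}) ⊆ {ω | S ω = 0} := by
    intro ω hω
    have h3 : ∀ n : ℕ, |S ω| ≤ 1 / ((n : ℝ) + 1) := fun n => mem_iInter.1 hω n
    have h4 : |S ω| ≤ 0 :=
      ge_of_tendsto' (tendsto_one_div_add_atTop_nhds_zero_nat (𝕜 := ℝ)) h3
    exact abs_eq_zero.1 (le_antisymm h4 (abs_nonneg _))
  rw [measure_mono_null h2 h0] at h1
  have h3 : ∀ᶠ n : ℕ in atTop, P {ω | |S ω| ≤ 1 / ((n : ℝ) + 1)} < ENNReal.ofReal b :=
    h1.eventually (gt_mem_nhds (by simpa using hb))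
  obtain ⟨n, hn⟩ := h3.exists
  exact ⟨_, hd n, ENNReal.toReal_le_of_le_ofReal hb.le hn.le⟩

/-- uniform lower bound on the unit sphere -/
lemma sphere (P : Measure Ω) [IsFiniteMeasure P] (hX : ∀ i, Measurable (X i))
    (hind : ∀ v : ι → ℝ, v ≠ 0 → P {ω | comb X v ω = 0} = 0) {b : ℝ} (hb : 0 < b) {M : ℝ}
    (hM : 0 < M) : ∃ η : ℝ, 0 < η ∧ ∀ u : ι → ℝ, ‖u‖ = 1 →
      P.real {ω | ∑ i, |X i ω| ≤ M ∧ |comb X u ω| ≤ η} ≤ b := by
  by_contra hcon
  push Not at hcon
  have h1 : ∀ n : ℕ, ∃ u : ι → ℝ, ‖u‖ = 1 ∧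
      b < P.real {ω | ∑ i, |X i ω| ≤ M ∧ |comb X u ω| ≤ 1 / ((n : ℝ) + 1)} := fun n =>
    hcon _ (by positivity)
  choose u hu1 hu2 using h1
  obtain ⟨w, hw, φ, hφ, hlim⟩ := (isCompact_sphere (0 : ι → ℝ) 1).tendsto_subseq
    (x := u) fun n => by rw [mem_sphere_zero_iff_norm]; exact hu1 n
  have hw1 : ‖w‖ = 1 := by rwa [mem_sphere_zero_iff_norm] at hw
  have hw0 : w ≠ 0 := by
    rintro rfl
    simp at hw1
  obtain ⟨η, hη, hηb⟩ := small_values P (meas_comb hX w) (hind w hw0) hb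
  have h2 : ∀ᶠ n in atTop, dist ((u ∘ φ) n) w < η / 2 / M :=
    hlim.eventually (Metric.ball_mem_nhds _ (by positivity))
  have h3 : ∀ᶠ n : ℕ in atTop, 1 / ((φ n : ℝ) + 1) < η / 2 := by
    have := (tendsto_one_div_add_atTop_nhds_zero_nat (𝕜 := ℝ)).comp hφ.tendsto_atTop
    exact this.eventually (gt_mem_nhds (by positivity))
  obtain ⟨n, hn1, hn2⟩ := (h2.and h3).exists
  have h4 := hu2 (φ n)
  have h5 : {ω | ∑ i, |X i ω| ≤ M ∧ |comb X (u (φ n)) ω| ≤ 1 / ((φ n : ℝ) + 1)} ⊆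
      {ω | |comb X w ω| ≤ η} := by
    rintro ω ⟨ha, hb'⟩
    have h6 : comb X w ω = comb X (u (φ n)) ω - comb X (u (φ n) - w) ω := by
      rw [comb_sub]; ring
    have h7 := comb_le (X := X) (u (φ n) - w) ω
    have h8 : ‖u (φ n) - w‖ < η / 2 / M := by
      rw [← dist_eq_norm]; exact hn1
    have h9 : |comb X (u (φ n) - w) ω| ≤ η / 2 := by
      calc _ ≤ ‖u (φ n) - w‖ * ∑ i, |X i ω| := h7
        _ ≤ (η / 2 / M) * M := by
            apply mul_le_mul h8.le ha (Finset.sum_nonneg fun _ _ => abs_nonneg _) (by positivity)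
        _ = η / 2 := by field_simp
    show |comb X w ω| ≤ η
    rw [h6]
    calc _ ≤ |comb X (u (φ n)) ω| + |comb X (u (φ n) - w) ω| := abs_sub _ _
      _ ≤ η := by linarith
  have h6 := measureReal_mono (μ := P) h5
  linarith

/-- **Uniform comparability.** -/
lemma tight (P : Measure Ω) [IsFiniteMeasure P] (hX : ∀ i, Measurable (X i))
    (hind : ∀ v : ι → ℝ, v ≠ 0 → P {ω | comb X v ω = 0} = 0) {b : ℝ} (hb : 0 < b) :
    ∃ η K ρ : ℝ, 0 < η ∧ 1 ≤ K ∧ 0 < ρ ∧ ∀ u : ι → ℝ, u ≠ 0 → ‖u‖ < ρ →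
      P.real {ω | ¬ (η * ‖u‖ ≤ ‖((comb X u ω : ℝ) : UnitAddCircle)‖ ∧
        ‖((comb X u ω : ℝ) : UnitAddCircle)‖ ≤ K * (η * ‖u‖))} ≤ b := by
  obtain ⟨M, hM, hMb⟩ := bdd_outside P (S := fun ω => ∑ i, |X i ω|)
    (Finset.measurable_sum _ fun i _ => (hX i).abs) (b := b / 2) (by positivity)
  obtain ⟨η', hη', hηb⟩ := sphere P hX hind (b := b / 2) (by positivity) hM
  set η := min η' M with hη
  have hη0 : 0 < η := lt_min hη' hM
  have hηM : η ≤ M := min_le_right _ _
  refine ⟨η, M / η, 1 / (2 * M), hη0, (one_le_div hη0).2 hηM, by positivity, fun u hu0 hu => ?_⟩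
  have hun : 0 < ‖u‖ := norm_pos_iff.2 hu0
  set w : ι → ℝ := ‖u‖⁻¹ • u with hw
  have hw1 : ‖w‖ = 1 := by
    rw [hw, norm_smul, norm_inv, norm_norm]
    field_simp
  have hsub : {ω | ¬ (η * ‖u‖ ≤ ‖((comb X u ω : ℝ) : UnitAddCircle)‖ ∧
        ‖((comb X u ω : ℝ) : UnitAddCircle)‖ ≤ M / η * (η * ‖u‖))} ⊆
      {ω | M < ∑ i, |X i ω|} ∪ {ω | ∑ i, |X i ω| ≤ M ∧ |comb X w ω| ≤ η'} := by
    intro ω hω
    by_contra hcon
    simp only [mem_union, mem_ofPred_eq, not_or, not_lt, not_and, not_le] at hcon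
    obtain ⟨h1, h2⟩ := hcon
    have h3 := h2 h1
    apply hω
    have h4 : comb X u ω = ‖u‖ * comb X w ω := by
      rw [← comb_smul, hw, smul_smul, mul_inv_cancel₀ hun.ne', one_smul]
    have h5 : |comb X u ω| ≤ ‖u‖ * M := (comb_le u ω).trans (by gcongr)
    have h6 : ‖u‖ * M ≤ 1 / 2 := by
      calc ‖u‖ * M ≤ 1 / (2 * M) * M := by gcongr
        _ = 1 / 2 := by field_simp
    have h7 : ‖((comb X u ω : ℝ) : UnitAddCircle)‖ = |comb X u ω| := by
      refine (AddCircle.norm_coe_eq_abs_iff (1 : ℝ) one_ne_zero).2 ?_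
      rw [abs_one]
      exact h5.trans h6
    rw [h7]
    constructor
    · rw [h4, abs_mul, abs_of_pos hun]
      have : η ≤ |comb X w ω| := (min_le_left _ _).trans h3.le
      nlinarith
    · calc |comb X u ω| ≤ ‖u‖ * M := h5
        _ = M / η * (η * ‖u‖) := by field_simp
  calc _ ≤ P.real ({ω | M < ∑ i, |X i ω|} ∪ {ω | ∑ i, |X i ω| ≤ M ∧ |comb X w ω| ≤ η'}) :=
        measureReal_mono hsub
    _ ≤ P.real {ω | M < ∑ i, |X i ω|} + P.real {ω | ∑ i, |X i ω| ≤ M ∧ |comb X w ω| ≤ η'} :=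
        measureReal_union_le _ _
    _ ≤ b / 2 + b / 2 := add_le_add hMb (hηb w hw1)
    _ = b := by ring

end

end Pool.Agent.U610.PI
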