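import Mathlib
import Pool.Agent.U610.PI.Small
import Pool.Agent.U610.PI.Tight
import Pool.Agent.U610.AR.Real

/-!
All but countably many linear combinations of given functions have a law modulo one which is
singular to all the singular invariant measures.
-/

set_option autoImplicit false

open MeasureTheory Filter Topology Set
open scoped ENNReal

namespace Pool.Agent.U610.PI

section

variable {Ω : Type*} [MeasurableSpace Ω] {ι : Type*} [Fintype ι] {X : ι → Ω → ℝ}

/-- the linear combination modulo one -/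
noncomputable def cm (X : ι → Ω → ℝ) (v : ι → ℝ) (ω : Ω) : T := ((comb X v ω : ℝ) : T)

omit [MeasurableSpace Ω] in
lemma cm_sub (v w : ι → ℝ) (ω : Ω) : cm X v ω - cm X w ω = ((comb X (v - w) ω : ℝ) : T) := by
  unfold cm
  rw [comb_sub, AddCircle.coe_sub]

lemma meas_cm (hX : ∀ i, Measurable (X i)) (v : ι → ℝ) : Measurable (cm X v) :=
  Pool.Agent.U610.AR.meas_coe.comp (meas_comb hX v)

/-- quantitative overlap with a measure with rare half-Lebesgue windows -/
def Ov (P : Measure Ω) (X : ι → Ω → ℝ) (p q k : ℕ) (c' ε : ℝ) (v : ι → ℝ) : Prop :=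
  ∃ (ν : Measure T) (B : Set Ω), Sm p q ν c' ε ∧ MeasurableSet B ∧ 1 / (k : ℝ) ≤ P.real B ∧
    (P.restrict B).map (cm X v) ≤ (k : ℝ≥0∞) • ν

lemma half_part {P : Measure Ω} [IsFiniteMeasure P] (hX : ∀ i, Measurable (X i)) {p q k : ℕ}
    {c' ε : ℝ} (hc' : 0 ≤ c') {ν : Measure T} {B : Set Ω} (hs : Sm p q ν c' ε)
    (hB : MeasurableSet B) {v : ι → ℝ}
    (hle : (P.restrict B).map (cm X v) ≤ (k : ℝ≥0∞) • ν) {W : Finset ℕ} (hW : W.Nonempty)
    (hWS : ∀ n ∈ W, ∃ a b : ℕ, n = p ^ a * q ^ b) :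
    P.real (B ∩ {ω | Half W ε (cm X v ω)}) ≤ k * c' := by
  have h1 : P (B ∩ {ω | Half W ε (cm X v ω)}) ≤ (k : ℝ≥0∞) * ENNReal.ofReal c' := by
    calc P (B ∩ {ω | Half W ε (cm X v ω)})
        = (P.restrict B) ((cm X v) ⁻¹' {x | Half W ε x}) := by
          rw [Measure.restrict_apply' hB, inter_comm]; rfl
      _ ≤ (P.restrict B).map (cm X v) {x | Half W ε x} :=
          Measure.le_map_apply (meas_cm hX v).aemeasurable _
      _ ≤ ((k : ℝ≥0∞) • ν) {x | Half W ε x} := hle _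
      _ = k * ν {x | Half W ε x} := by rw [Measure.smul_apply, smul_eq_mul]
      _ ≤ k * ENNReal.ofReal c' := by gcongr; exact hs W hW hWS
  have h2 : (k : ℝ≥0∞) * ENNReal.ofReal c' = ENNReal.ofReal (k * c') := by
    rw [ENNReal.ofReal_mul (by positivity), ENNReal.ofReal_natCast]
  rw [h2] at h1
  exact ENNReal.toReal_le_of_le_ofReal (by positivity) h1

/-- **Finiteness for quantitative overlap.** -/
theorem finite_ov {p q : ℕ} (hp : 2 ≤ p) (hq : 2 ≤ q) (hpq : Nat.Coprime p q) (P : Measure Ω)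
    [IsFiniteMeasure P] (hX : ∀ i, Measurable (X i))
    (hind : ∀ v : ι → ℝ, v ≠ 0 → P {ω | comb X v ω = 0} = 0) {k : ℕ} (hk : 0 < k) :
    ∃ c' : ℝ, 0 < c' ∧ ∀ ε : ℝ, 0 < ε → ∀ R : ℝ,
      {v : ι → ℝ | ‖v‖ ≤ R ∧ Ov P X p q k c' ε v}.Finite := by
  have hkR : (0 : ℝ) < k := by exact_mod_cast hk
  obtain ⟨b, hb, hpair⟩ := pairInter P (β := 1 / (k : ℝ)) (by positivity)
  refine ⟨b / (8 * k), by positivity, fun ε hε R => ?_⟩
  obtain ⟨η, K, ρ, hη, hK, hρ, htight⟩ := tight P hX hind (b := b / 4) (by positivity)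
  obtain ⟨δ, hδ, hhalf⟩ := pairHalf hp hq hpq hK hε
  by_contra hinf
  rw [Set.not_finite] at hinf
  set E := {v : ι → ℝ | ‖v‖ ≤ R ∧ Ov P X p q k (b / (8 * k)) ε v} with hE
  set u : ℕ → ι → ℝ := fun n => (hinf.natEmbedding E n : ι → ℝ) with hu
  have hui : Function.Injective u := fun i j hij =>
    (hinf.natEmbedding E).injective (Subtype.ext hij)
  have huE : ∀ n, u n ∈ E := fun n => (hinf.natEmbedding E n).2
  obtain ⟨w, -, φ, hφ, hlim⟩ := (isCompact_closedBall (0 : ι → ℝ) R).tendsto_subseq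
    (x := u) fun n => by rw [mem_closedBall_zero_iff]; exact (huE n).1
  have hr : 0 < min ρ (δ / η) / 2 := by positivity
  have h2 : ∀ᶠ n in atTop, dist ((u ∘ φ) n) w < min ρ (δ / η) / 2 :=
    hlim.eventually (Metric.ball_mem_nhds _ hr)
  obtain ⟨n0, hn0⟩ := eventually_atTop.1 h2
  have hOv : ∀ n, ∃ (ν : Measure T) (B : Set Ω), Sm p q ν (b / (8 * k)) ε ∧ MeasurableSet B ∧
      1 / (k : ℝ) ≤ P.real B ∧ (P.restrict B).map (cm X (u (φ (n + n0)))) ≤ (k : ℝ≥0∞) • ν :=
    fun n => (huE (φ (n + n0))).2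
  choose ν B hSm hBm hBk hBle using hOv
  obtain ⟨i, j, hij, hbij⟩ := hpair B hBm hBk
  set d : ι → ℝ := u (φ (i + n0)) - u (φ (j + n0)) with hd
  have hd0 : d ≠ 0 := by
    rw [hd, sub_ne_zero]
    intro h
    have := hφ.injective (hui h)
    omega
  have hdn : 0 < ‖d‖ := norm_pos_iff.2 hd0
  have hdlt : ‖d‖ < min ρ (δ / η) := by
    have h3 := hn0 (i + n0) (by omega)
    have h4 := hn0 (j + n0) (by omega)
    rw [hd, ← dist_eq_norm]
    calc dist (u (φ (i + n0))) (u (φ (j + n0)))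
        ≤ dist (u (φ (i + n0))) w + dist (u (φ (j + n0))) w := dist_triangle_right _ _ _
      _ < min ρ (δ / η) / 2 + min ρ (δ / η) / 2 := add_lt_add h3 h4
      _ = _ := by ring
  have hdρ : ‖d‖ < ρ := hdlt.trans_le (min_le_left _ _)
  have hdδ : η * ‖d‖ < δ := by
    have := hdlt.trans_le (min_le_right ρ (δ / η))
    rw [lt_div_iff₀ hη] at this
    linarith
  obtain ⟨W, hW, hWS, hWh⟩ := hhalf (η * ‖d‖) (by positivity) hdδ
  have hbad := htight d hd0 hdρ
  have hk1 := half_part (P := P) hX (k := k) (c' := b / (8 * k)) (by positivity) (hSm i) (hBm i)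
    (hBle i) hW hWS
  have hk2 := half_part (P := P) hX (k := k) (c' := b / (8 * k)) (by positivity) (hSm j) (hBm j)
    (hBle j) hW hWS
  have hkb : (k : ℝ) * (b / (8 * k)) = b / 8 := by field_simp
  rw [hkb] at hk1 hk2
  set G1 := B i ∩ {ω | Half W ε (cm X (u (φ (i + n0))) ω)} with hG1
  set G2 := B j ∩ {ω | Half W ε (cm X (u (φ (j + n0))) ω)} with hG2
  set G3 := {ω | ¬ (η * ‖d‖ ≤ ‖((comb X d ω : ℝ) : UnitAddCircle)‖ ∧
        ‖((comb X d ω : ℝ) : UnitAddCircle)‖ ≤ K * (η * ‖d‖))} with hG3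
  have hsub : B i ∩ B j ⊆ G1 ∪ (G2 ∪ G3) := by
    rintro ω ⟨hi, hj⟩
    by_cases h : ω ∈ G3
    · exact Or.inr (Or.inr h)
    · rw [hG3, mem_ofPred_eq, not_not] at h
      have h5 := hWh (cm X (u (φ (i + n0))) ω) (cm X (u (φ (j + n0))) ω)
        (by rw [cm_sub]; exact h.1) (by rw [cm_sub]; exact h.2)
      rcases h5 with h5 | h5
      · exact Or.inl ⟨hi, h5⟩
      · exact Or.inr (Or.inl ⟨hj, h5⟩)
  have h6 : P.real (B i ∩ B j) ≤ b / 8 + (b / 8 + b / 4) := by
    calc P.real (B i ∩ B j) ≤ P.real (G1 ∪ (G2 ∪ G3)) := measureReal_mono hsub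
      _ ≤ P.real G1 + P.real (G2 ∪ G3) := measureReal_union_le _ _
      _ ≤ P.real G1 + (P.real G2 + P.real G3) := by gcongr; exact measureReal_union_le _ _
      _ ≤ _ := by gcongr
  linarith

/-- a probability measure on the circle, singular to Lebesgue measure and invariant under two
coprime multiplications -/
def Exc (ν : Measure T) : Prop :=
  IsProbabilityMeasure ν ∧ ν ⟂ₘ (volume : Measure T) ∧
    ∃ p q : ℕ, 2 ≤ p ∧ 2 ≤ q ∧ Nat.Coprime p q ∧
      MeasurePreserving (fun x : T => p • x) ν ν ∧ MeasurePreserving (fun x : T => q • x) ν ν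

/-- **Countability, finitely many functions.** -/
theorem countable_comb (P : Measure Ω) [IsFiniteMeasure P] (hX : ∀ i, Measurable (X i))
    (hind : ∀ v : ι → ℝ, v ≠ 0 → P {ω | comb X v ω = 0} = 0) :
    {v : ι → ℝ | ∃ ν : Measure T, Exc ν ∧ ¬ (P.map (cm X v)) ⟂ₘ ν}.Countable := by
  classical
  -- constants
  have hc : ∀ (p q k : ℕ), ∃ c' : ℝ, 0 < c' ∧ (2 ≤ p → 2 ≤ q → Nat.Coprime p q → 0 < k →
      ∀ ε : ℝ, 0 < ε → ∀ R : ℝ, {v : ι → ℝ | ‖v‖ ≤ R ∧ Ov P X p q k c' ε v}.Finite) := by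
    intro p q k
    by_cases h : 2 ≤ p ∧ 2 ≤ q ∧ Nat.Coprime p q ∧ 0 < k
    · obtain ⟨c', hc', h'⟩ := finite_ov h.1 h.2.1 h.2.2.1 P hX hind h.2.2.2
      exact ⟨c', hc', fun _ _ _ _ => h'⟩
    · exact ⟨1, one_pos, fun h1 h2 h3 h4 => absurd ⟨h1, h2, h3, h4⟩ h⟩
  choose c hc0 hcfin using hc
  have hcov : {v : ι → ℝ | ∃ ν : Measure T, Exc ν ∧ ¬ (P.map (cm X v)) ⟂ₘ ν} ⊆
      ⋃ (p : ℕ) (q : ℕ) (k : ℕ) (j : ℕ) (R : ℕ) (_ : 2 ≤ p ∧ 2 ≤ q ∧ Nat.Coprime p q ∧ 0 < k),
        {v : ι → ℝ | ‖v‖ ≤ (R : ℝ) ∧ Ov P X p q k (c p q k) (1 / ((j : ℝ) + 1)) v} := by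
    rintro v ⟨ν, ⟨hν1, hνs, p, q, hp, hq, hpq, hνp, hνq⟩, hv⟩
    obtain ⟨B, hBm, hB0, hBν⟩ := Pool.Agent.U610.AR.exists_ac (meas_cm hX v) hv
    obtain ⟨Q, hQm, -, hQ0, hQ⟩ := Pool.Agent.H847R3.XpXq.trunc (meas_cm hX v) hBν
    obtain ⟨n, hn⟩ : ∃ n, P (Q n ∩ B) ≠ 0 := by
      by_contra hcon
      push Not at hcon
      apply hB0
      have h3 : (P.restrict B) (⋃ n, Q n) = 0 := by
        rw [measure_iUnion_null_iff]
        intro n
        rw [Measure.restrict_apply (hQm n)]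
        exact hcon n
      have h4 : (P.restrict B) univ = 0 := by
        rw [← union_compl_self (⋃ n, Q n)]
        exact measure_union_null h3 hQ0
      rwa [Measure.restrict_apply_univ] at h4
    have hle := hQ n (Q n) (hQm n) subset_rfl
    rw [Measure.restrict_restrict (hQm n)] at hle
    have hpos : 0 < P.real (Q n ∩ B) := ENNReal.toReal_pos hn (measure_ne_top _ _)
    obtain ⟨k1, hk1⟩ := exists_nat_one_div_lt hpos
    set k : ℕ := max n (k1 + 1) with hk
    have hk0 : 0 < k := lt_of_lt_of_le (Nat.succ_pos _) (le_max_right _ _)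
    obtain ⟨j, hj⟩ := exists_small hνp hνq hνs (hc0 p q k)
    obtain ⟨R, hR⟩ := exists_nat_ge ‖v‖
    simp only [mem_iUnion]
    refine ⟨p, q, k, j, R, ⟨hp, hq, hpq, hk0⟩, hR, ν, Q n ∩ B, hj, (hQm n).inter hBm, ?_, ?_⟩
    · refine le_trans ?_ hk1.le
      have h5 : ((k1 : ℝ) + 1) ≤ k := by
        have : k1 + 1 ≤ k := le_max_right _ _
        exact_mod_cast this
      gcongr
    · refine hle.trans ?_
      refine Measure.le_intro fun s _ _ => ?_
      rw [Measure.smul_apply, Measure.smul_apply, smul_eq_mul, smul_eq_mul]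
      gcongr
      exact le_max_left _ _
  refine Set.Countable.mono hcov ?_
  refine Set.countable_iUnion fun p => Set.countable_iUnion fun q => Set.countable_iUnion fun k =>
    Set.countable_iUnion fun j => Set.countable_iUnion fun R => Set.countable_iUnion fun h => ?_
  exact (hcfin p q k h.1 h.2.1 h.2.2.1 h.2.2.2 _ (by positivity) _).countable

end

section

variable {Ω : Type*} [MeasurableSpace Ω] {ι : Type*} [Countable ι] {g : ι → Ω → ℝ}

/-- **Countability, countably many functions.** -/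
theorem countable_finsupp (P : Measure Ω) [IsFiniteMeasure P] (hg : ∀ i, Measurable (g i))
    (hind : ∀ v : ι →₀ ℝ, v ≠ 0 → P {ω | (v.sum fun i a => a * g i ω) = 0} = 0) :
    {v : ι →₀ ℝ | ∃ ν : Measure T, Exc ν ∧
      ¬ (P.map fun ω => (((v.sum fun i a => a * g i ω) : ℝ) : T)) ⟂ₘ ν}.Countable := by
  classical
  -- extension of a vector supported on a finite set
  let ext : (s : Finset ι) → (s → ℝ) → (ι →₀ ℝ) := fun s w =>
    Finsupp.onFinset s (fun i => if h : i ∈ s then w ⟨i, h⟩ else 0) fun i hi => by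
      by_contra h
      exact hi (dif_neg h)
  have hsum : ∀ (s : Finset ι) (w : s → ℝ) (ω : Ω),
      ((ext s w).sum fun i a => a * g i ω) = comb (fun i : s => g i) w ω := by
    intro s w ω
    rw [Finsupp.sum_of_support_subset (s := s) _ Finsupp.support_onFinset_subset _
      (fun i _ => by simp)]
    unfold comb
    rw [← Finset.sum_coe_sort]
    refine Finset.sum_congr rfl fun i _ => ?_
    simp
  have hcov : {v : ι →₀ ℝ | ∃ ν : Measure T, Exc ν ∧
      ¬ (P.map fun ω => (((v.sum fun i a => a * g i ω) : ℝ) : T)) ⟂ₘ ν} ⊆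
      ⋃ s : Finset ι, ext s '' {w : s → ℝ | ∃ ν : Measure T, Exc ν ∧
        ¬ (P.map (cm (fun i : s => g i) w)) ⟂ₘ ν} := by
    rintro v ⟨ν, hν, hv⟩
    refine mem_iUnion.2 ⟨v.support, fun i => v i, ⟨ν, hν, ?_⟩, ?_⟩
    · have e : (cm (fun i : v.support => g i) fun i => v i) =
          fun ω => (((v.sum fun i a => a * g i ω) : ℝ) : T) := by
        funext ω
        unfold cm comb
        congr 1
        exact Finset.sum_coe_sort v.support fun i => v i * g i ω
      rw [e]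
      exact hv
    · ext i
      simp only [ext, Finsupp.onFinset_apply]
      by_cases h : i ∈ v.support
      · rw [dif_pos h]
      · rw [dif_neg h]
        exact (Finsupp.notMem_support_iff.1 h).symm
  refine Set.Countable.mono hcov (Set.countable_iUnion fun s => Set.Countable.image ?_ _)
  refine countable_comb P (fun i => hg i) ?_
  intro w hw
  have h1 := hind (ext s w) (by
    intro h
    apply hw
    funext i
    have h2 : (ext s w) i = 0 := by rw [h]; rfl
    simpa [ext] using h2)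
  refine measure_mono_null ?_ h1
  intro ω hω
  show ((ext s w).sum fun i a => a * g i ω) = 0
  rw [hsum]
  exact hω

end

open Polynomial in
/-- **Polynomials.** -/
theorem countable_poly (P : Measure ℝ) [IsFiniteMeasure P] (hna : ∀ x, P {x} = 0) :
    {f : ℝ[X] | ∃ ν : Measure T, Exc ν ∧
      ¬ (P.map fun x => ((f.eval x : ℝ) : T)) ⟂ₘ ν}.Countable := by
  classical
  let F : (ℕ →₀ ℝ) → ℝ[X] := fun v => v.sum fun i a => C a * X ^ i
  have hFc : ∀ (v : ℕ →₀ ℝ) (n : ℕ), (F v).coeff n = v n := by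
    intro v n
    simp only [F, Finsupp.sum, Polynomial.finsetSum_coeff, Polynomial.coeff_C_mul_X_pow]
    rw [Finset.sum_ite_eq]
    split_ifs with h
    · rfl
    · exact (Finsupp.notMem_support_iff.1 h).symm
  have hFe : ∀ (v : ℕ →₀ ℝ) (x : ℝ), (F v).eval x = v.sum fun i a => a * x ^ i := by
    intro v x
    simp only [F, Finsupp.sum, Polynomial.eval_finsetSum, Polynomial.eval_mul, Polynomial.eval_C,
      Polynomial.eval_pow, Polynomial.eval_X]
  have h := countable_finsupp (g := fun (i : ℕ) (x : ℝ) => x ^ i) P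
    (fun i => measurable_id.pow_const i) ?_
  · refine (h.image F).mono ?_
    rintro f ⟨ν, hν, hf⟩
    let v : ℕ →₀ ℝ := Finsupp.onFinset f.support f.coeff fun i hi => Polynomial.mem_support_iff.2 hi
    have hF : F v = f := by
      ext n
      rw [hFc]
      rfl
    refine ⟨v, ⟨ν, hν, ?_⟩, hF⟩
    simp_rw [← hFe, hF]
    exact hf
  · intro v hv
    have h1 : F v ≠ 0 := by
      intro h
      apply hv
      ext n
      rw [← hFc, h]
      simp
    have h2 : {x : ℝ | (v.sum fun i a => a * x ^ i) = 0} ⊆ ((F v).roots.toFinset : Set ℝ) := by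
      intro x hx
      rw [Finset.mem_coe, Multiset.mem_toFinset, Polynomial.mem_roots h1, Polynomial.IsRoot.def,
        hFe]
      exact hx
    have : NullSingletonClass P := ⟨hna⟩
    exact measure_mono_null h2 ((F v).roots.toFinset.finite_toSet.measure_zero P)

end Pool.Agent.U610.PI
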